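import Mathlib

/-!
# A topological group without closed fans which is not a k-space
-/

namespace Pool.Agent.Results.MP_632b8e_gt.NotKSpace

open Filter Topology Set Cardinal

universe u w

/-- `X` is a k-space: a set is closed if its trace on each compact `K` is closed in `K`. -/
def IsKSpace (X : Type u) [TopologicalSpace X] : Prop :=
  ∀ C : Set X, (∀ K : Set X, IsCompact K → IsClosed (Subtype.val ⁻¹' C : Set K)) → IsClosed C

/-- `X` contains no Cld-fan (with index set in the universe `w`): each compact-finite indexed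
family of closed sets is locally finite. -/
def NoCldFan (X : Type u) [TopologicalSpace X] : Prop :=
  ∀ (ι : Type w) (F : ι → Set X), (∀ i, IsClosed (F i)) →
    (∀ K : Set X, IsCompact K → {i | (F i ∩ K).Nonempty}.Finite) → LocallyFinite F

/-- The ordinals below `ω₂`. -/
abbrev W2 : Type := (Cardinal.aleph 2).ord.ToType

/-- Sets of cardinality at most `ℵ₁` are strictly bounded in `W2`. -/
theorem exists_bound {D : Set W2} (hD : #D ≤ Cardinal.aleph 1) : ∃ b, ∀ x ∈ D, x < b := by
  by_contra hcon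
  push Not at hcon
  have huniv : (univ : Set W2) ⊆ ⋃ x : D, Iic (x : W2) := fun b _ => by
    obtain ⟨x, hx, hbx⟩ := hcon b
    exact mem_iUnion.2 ⟨⟨x, hx⟩, hbx⟩
  have h1 : #W2 ≤ #(⋃ x : D, Iic (x : W2)) := by
    rw [← Cardinal.mk_univ]
    exact Cardinal.mk_le_mk_of_subset huniv
  have h2 : #(⋃ x : D, Iic (x : W2)) ≤ #D * ⨆ x : D, #(Iic (x : W2)) := Cardinal.mk_iUnion_le _
  have h3 : (⨆ x : D, #(Iic (x : W2))) ≤ Cardinal.aleph 1 := by
    refine ciSup_le' fun x => ?_
    have h4 : #(Iio (x : W2)) < Cardinal.aleph 2 := by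
      simpa using Cardinal.mk_Iio_lt (x : W2) (by simp)
    have h5 : #(Iio (x : W2)) ≤ Cardinal.aleph 1 := by
      have : (Cardinal.aleph 2) = Order.succ (Cardinal.aleph 1) := by
        rw [Cardinal.succ_aleph, one_add_one_eq_two]
      exact Order.lt_succ_iff.1 (h4.trans_eq this)
    rw [← Iio_insert]
    refine (Cardinal.mk_insert_le).trans ?_
    exact Cardinal.add_le_of_le (Cardinal.aleph0_le_aleph 1) h5
      (Cardinal.one_le_aleph0.trans (Cardinal.aleph0_le_aleph 1))
  have h6 : #W2 ≤ Cardinal.aleph 1 := by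
    refine h1.trans (h2.trans ?_)
    exact (mul_le_mul' hD h3).trans (Cardinal.mul_eq_self (Cardinal.aleph0_le_aleph 1)).le
  rw [Cardinal.mk_ord_toType] at h6
  exact absurd h6 (not_le.2 (Cardinal.aleph_lt_aleph.2 (by norm_num)))

/-- `b` has countable cofinality (zero and successors included). -/
def CtblCof (b : W2) : Prop :=
  ∃ S : Set W2, S.Countable ∧ (∀ s ∈ S, s < b) ∧ ∀ c < b, ∃ s ∈ S, c ≤ s

/-- `x` is constant on all intervals `[a, b]` with `(a, b]` disjoint from `B`. -/
def JumpsIn (x : W2 → ZMod 2) (B : Set W2) : Prop :=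
  ∀ a b, a ≤ b → (∀ c ∈ B, a < c → ¬ c ≤ b) → x a = x b

/-- The Boolean group of all `x` with countably many jumps, all at points of countable
cofinality. -/
def G : AddSubgroup (W2 → ZMod 2) where
  carrier := {x | ∃ B : Set W2, B.Countable ∧ (∀ b ∈ B, CtblCof b) ∧ JumpsIn x B}
  zero_mem' := ⟨∅, countable_empty, fun _ h => absurd h (notMem_empty _), fun _ _ _ _ => rfl⟩
  add_mem' := by
    rintro x y ⟨B, hB, hB', hx⟩ ⟨C, hC, hC', hy⟩
    refine ⟨B ∪ C, hB.union hC, ?_, fun a b hab h => ?_⟩
    · rintro b (hb | hb)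
      · exact hB' b hb
      · exact hC' b hb
    · change x a + y a = x b + y b
      rw [hx a b hab fun c hc => h c (Or.inl hc), hy a b hab fun c hc => h c (Or.inr hc)]
  neg_mem' := by
    rintro x ⟨B, hB, hB', hx⟩
    refine ⟨B, hB, hB', fun a b hab h => ?_⟩
    change -x a = -x b
    rw [hx a b hab h]

/-- Countable subsets of `G` have compact closure. -/
theorem compact_closure (S : Set G) (hS : S.Countable) : IsCompact (closure S) := by
  choose A hA hA' hgA using fun g : G => g.2
  set B : Set W2 := ⋃ g ∈ S, A g with hB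
  have hBc : B.Countable := hS.biUnion fun g _ => hA g
  have hB' : ∀ b ∈ B, CtblCof b := by
    intro b hb
    obtain ⟨g, -, hb⟩ := mem_iUnion₂.1 hb
    exact hA' g b hb
  let K : Set (W2 → ZMod 2) := {x | JumpsIn x B}
  have hKc : IsClosed K := by
    change IsClosed {x : W2 → ZMod 2 | ∀ a b, a ≤ b → (∀ c ∈ B, a < c → ¬ c ≤ b) → x a = x b}
    simp only [ofPred_forall]
    refine isClosed_iInter fun u => isClosed_iInter fun v => isClosed_iInter fun _ =>
      isClosed_iInter fun _ => ?_
    exact isClosed_eq (continuous_apply _) (continuous_apply _)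
  have hKG : K ⊆ (G : Set (W2 → ZMod 2)) := fun g hg => ⟨B, hBc, hB', hg⟩
  have hKcomp : IsCompact (Subtype.val ⁻¹' K : Set G) := by
    rw [Subtype.isCompact_iff, image_preimage_eq_inter_range, Subtype.range_coe]
    have : K ∩ (G : Set (W2 → ZMod 2)) = K := inter_eq_left.2 hKG
    change IsCompact (K ∩ (G : Set (W2 → ZMod 2)))
    rw [this]
    exact hKc.isCompact
  refine hKcomp.of_isClosed_subset isClosed_closure (closure_minimal ?_
    (hKc.preimage continuous_subtype_val))
  intro g hg a b hab h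
  exact hgA g a b hab fun c hc => h c (mem_iUnion₂.2 ⟨g, hg, hc⟩)

/-- Spaces in which countable sets have compact closure contain no fans at all. -/
theorem noFan {X : Type u} [TopologicalSpace X]
    (hX : ∀ S : Set X, S.Countable → IsCompact (closure S)) {ι : Type w} (F : ι → Set X)
    (hF : ∀ K : Set X, IsCompact K → {i | (F i ∩ K).Nonempty}.Finite) : LocallyFinite F := by
  have hfin : {i | (F i).Nonempty}.Finite := by
    by_contra hinf
    have hinf : {i | (F i).Nonempty}.Infinite := hinf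
    let e := hinf.natEmbedding
    choose x hx using fun n : ℕ => (e n).2
    have h1 := hF _ (hX (range x) (countable_range x))
    have h2 : (range fun n => ((e n : {i | (F i).Nonempty}) : ι)) ⊆
        {i | (F i ∩ closure (range x)).Nonempty} := by
      rintro _ ⟨n, rfl⟩
      exact ⟨x n, hx n, subset_closure (mem_range_self n)⟩
    exact (infinite_range_of_injective
      (Subtype.val_injective.comp e.injective)) (h1.subset h2)
  intro x
  exact ⟨univ, univ_mem, hfin.subset fun i hi => by simpa using hi⟩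

/-- the indicator of the final segment starting at `a`. -/
noncomputable def ind (a : W2) : W2 → ZMod 2 := fun b => if a ≤ b then 1 else 0

theorem ind_of_le {a b : W2} (h : a ≤ b) : ind a b = 1 := if_pos h
theorem ind_of_lt {a b : W2} (h : b < a) : ind a b = 0 := if_neg (not_le.2 h)

theorem ind_mem {a : W2} (ha : CtblCof a) : ind a ∈ G := by
  refine ⟨{a}, countable_singleton a, fun b hb => (mem_singleton_iff.1 hb) ▸ ha, ?_⟩
  intro b c hbc h
  rcases le_or_gt a b with hab | hab
  · rw [ind_of_le hab, ind_of_le (hab.trans hbc)]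
  · have : c < a := not_le.1 (h a (mem_singleton a) hab)
    rw [ind_of_lt hab, ind_of_lt this]

theorem ctblCof_of_ind_mem {a : W2} (h : ind a ∈ G) : CtblCof a := by
  obtain ⟨B, hB, hB', hx⟩ := h
  by_contra hcon
  have haB : a ∉ B := fun h => hcon (hB' a h)
  have hbd : ∃ c < a, ∀ s ∈ B ∩ Iio a, s < c := by
    by_contra h2
    push Not at h2
    apply hcon
    refine ⟨B ∩ Iio a, hB.mono inter_subset_left, fun s hs => hs.2, fun c hc => ?_⟩
    obtain ⟨s, hs, hcs⟩ := h2 c hc
    exact ⟨s, hs, hcs⟩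
  obtain ⟨c, hca, hc⟩ := hbd
  have := hx c a hca.le fun d hd hcd hda => by
    have hda' : d < a := lt_of_le_of_ne hda fun h => haB (h ▸ hd)
    exact lt_asymm hcd (hc d ⟨hd, hda'⟩)
  rw [ind_of_lt hca, ind_of_le le_rfl] at this
  exact absurd this (by decide)

theorem exists_gt_ctbl (F : Finset W2) : ∃ a, CtblCof a ∧ ∀ b ∈ F, b < a := by
  obtain ⟨b, hb⟩ := exists_bound (D := (F : Set W2)) (by
    have : #(F : Set W2) < ℵ₀ := Cardinal.lt_aleph0_of_finite _
    exact this.le.trans (Cardinal.aleph0_le_aleph 1))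
  let T : Set W2 := {a | ∀ b ∈ F, b < a}
  have hT : T.Nonempty := ⟨b, fun c hc => hb c hc⟩
  obtain ⟨a, ha, hmin⟩ := WellFounded.has_min (wellFounded_lt (α := W2)) T hT
  refine ⟨a, ⟨(F : Set W2), F.countable_toSet, ha, fun c hc => ?_⟩, ha⟩
  by_contra hcon
  push Not at hcon
  exact hmin c (fun b hb => hcon b hb) hc

theorem nhds_basis {s : Set (W2 → ZMod 2)} {x : W2 → ZMod 2} (hs : s ∈ 𝓝 x) :
    ∃ F : Finset W2, ∀ y : W2 → ZMod 2, (∀ i ∈ F, y i = x i) → y ∈ s := by
  obtain ⟨t, hts, hto, hxt⟩ := mem_nhds_iff.1 hs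
  obtain ⟨F, u, hu, hsub⟩ := isOpen_pi_iff.1 hto x hxt
  refine ⟨F, fun y hy => hts (hsub fun i hi => ?_)⟩
  rw [hy i hi]
  exact (hu i hi).2

theorem cyl_mem_nhds (F : Finset W2) (x : W2 → ZMod 2) :
    {y : W2 → ZMod 2 | ∀ i ∈ F, y i = x i} ∈ 𝓝 x := by
  have : {y : W2 → ZMod 2 | ∀ i ∈ F, y i = x i} = (F : Set W2).pi fun i => {x i} := by
    ext y; simp [Set.mem_pi]
  rw [this]
  exact set_pi_mem_nhds F.finite_toSet fun i _ => by simp

/-- The set of all `ind a` with `a` of countable cofinality. -/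
def C : Set G := {g | ∃ a, CtblCof a ∧ (g : W2 → ZMod 2) = ind a}

theorem C_not_closed : ¬ IsClosed C := by
  intro hcl
  have h0 : (0 : G) ∈ closure C := by
    rw [mem_closure_iff_nhds]
    intro t ht
    obtain ⟨s, hs, hst⟩ := mem_nhds_subtype _ _ _ |>.1 ht
    obtain ⟨F, hF⟩ := nhds_basis hs
    obtain ⟨a, ha, haF⟩ := exists_gt_ctbl F
    refine ⟨⟨ind a, ind_mem ha⟩, hst (hF _ fun i hi => ?_), a, ha, rfl⟩
    change ind a i = 0
    rw [ind_of_lt (haF i hi)]
  rw [hcl.closure_eq] at h0
  obtain ⟨a, -, ha⟩ := h0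
  have h1 : (0 : W2 → ZMod 2) a = ind a a := congrFun ha a
  rw [ind_of_le le_rfl] at h1
  have h2 : (0 : ZMod 2) = 1 := h1
  exact absurd h2 (by decide)

/-- An unbounded subset of `W2` has an uncountable trace on some initial segment. -/
theorem exists_uncountable_trace {D : Set W2} (hD : ∀ a, ∃ d ∈ D, a < d) :
    ∃ a, ¬ (D ∩ Iio a).Countable := by
  have hbig : Cardinal.aleph 1 ≤ #D := by
    by_contra hlt
    obtain ⟨b, hb⟩ := exists_bound (not_le.1 hlt).le
    obtain ⟨d, hd, hbd⟩ := hD b
    exact lt_asymm hbd (hb d hd)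
  obtain ⟨D', hD'D, hD'⟩ := Cardinal.le_mk_iff_exists_subset.1 hbig
  obtain ⟨b, hb⟩ := exists_bound hD'.le
  refine ⟨b, fun hc => ?_⟩
  have h1 : D'.Countable := by
    refine hc.mono ?_
    intro x hx
    exact ⟨hD'D hx, hb x hx⟩
  have h2 : #D' ≤ ℵ₀ := Cardinal.le_aleph0_iff_set_countable.2 h1
  rw [hD'] at h2
  exact absurd h2 (not_le.2 Cardinal.aleph0_lt_aleph_one)

theorem C_k_closed (K : Set G) (hK : IsCompact K) : IsClosed (C ∩ K) := by
  have hKcl : IsClosed (Subtype.val '' K : Set (W2 → ZMod 2)) :=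
    (hK.image continuous_subtype_val).isClosed
  rw [← closure_subset_iff_isClosed]
  intro x hx
  have hxK : x ∈ K := by
    have := closure_mono (inter_subset_right : C ∩ K ⊆ K) hx
    rwa [hK.isClosed.closure_eq] at this
  -- approximation property
  have happ : ∀ F : Finset W2, ∃ a, CtblCof a ∧ ind a ∈ (Subtype.val '' K : Set (W2 → ZMod 2)) ∧
      ∀ i ∈ F, ind a i = (x : W2 → ZMod 2) i := by
    intro F
    rw [mem_closure_iff_nhds] at hx
    have hnb : {y : G | ∀ i ∈ F, (y : W2 → ZMod 2) i = (x : W2 → ZMod 2) i} ∈ 𝓝 x :=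
      (continuous_subtype_val.tendsto x) (cyl_mem_nhds F (x : W2 → ZMod 2))
    obtain ⟨y, hy, ⟨a, ha, hya⟩, hyK⟩ := hx _ hnb
    exact ⟨a, ha, ⟨y, hyK, hya⟩, fun i hi => by rw [← hya]; exact hy i hi⟩
  by_cases hx0 : ∃ b, (x : W2 → ZMod 2) b = 1
  · -- then `x = ind a`
    obtain ⟨a, ha, hmin⟩ := WellFounded.has_min (wellFounded_lt (α := W2))
      {b | (x : W2 → ZMod 2) b = 1} hx0
    have hxa : (x : W2 → ZMod 2) = ind a := by
      funext b
      rcases le_or_gt a b with hab | hab
      · rw [ind_of_le hab]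
        obtain ⟨c, -, -, hc⟩ := happ {a, b}
        have h1 := hc a (by simp)
        have h2 := hc b (by simp)
        have ha' : (x : W2 → ZMod 2) a = 1 := ha
        rw [ha'] at h1
        have hca : c ≤ a := by
          by_contra hlt
          rw [ind_of_lt (not_le.1 hlt)] at h1
          exact absurd h1 (by decide)
        rw [ind_of_le (hca.trans hab)] at h2
        exact h2.symm
      · rw [ind_of_lt hab]
        have h1 : ¬ (x : W2 → ZMod 2) b = 1 := fun h => hmin b h hab
        have : ∀ z : ZMod 2, z ≠ 1 → z = 0 := by decide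
        exact this _ h1
    refine ⟨⟨a, ctblCof_of_ind_mem (hxa ▸ x.2), hxa⟩, hxK⟩
  · -- `x = 0`: contradiction
    exfalso
    push Not at hx0
    have hx0' : ∀ b, (x : W2 → ZMod 2) b = 0 := fun b => by
      have : ∀ z : ZMod 2, z ≠ 1 → z = 0 := by decide
      exact this _ (hx0 b)
    let D : Set W2 := {a | CtblCof a ∧ ind a ∈ (Subtype.val '' K : Set (W2 → ZMod 2))}
    have hD : ∀ a, ∃ d ∈ D, a < d := by
      intro a
      obtain ⟨d, hd1, hd2, hd3⟩ := happ {a}
      refine ⟨d, ⟨hd1, hd2⟩, ?_⟩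
      have := hd3 a (by simp)
      rw [hx0'] at this
      by_contra hle
      rw [ind_of_le (not_lt.1 hle)] at this
      exact absurd this (by decide)
    obtain ⟨a, ha, hmin⟩ := WellFounded.has_min (wellFounded_lt (α := W2))
      {a | ¬ (D ∩ Iio a).Countable} (exists_uncountable_trace hD)
    have hcount : ∀ b < a, (D ∩ Iic b).Countable := by
      intro b hb
      have h1 : (D ∩ Iio b).Countable := by
        by_contra h
        exact hmin b h hb
      refine (h1.insert b).mono ?_
      rintro y ⟨hyD, hyb⟩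
      rcases eq_or_lt_of_le (show y ≤ b from hyb) with h | h
      · exact Or.inl h
      · exact Or.inr ⟨hyD, h⟩
    have hex : ∀ b < a, ∃ d ∈ D, b < d ∧ d < a := by
      intro b hb
      by_contra hcon
      push Not at hcon
      apply ha
      refine (hcount b hb).mono ?_
      rintro y ⟨hyD, hya⟩
      refine ⟨hyD, ?_⟩
      by_contra hlt
      exact absurd (hcon y hyD (not_le.1 hlt)) (not_le.2 hya)
    -- `ind a` is in the closure of `K`
    have hmem : ind a ∈ (Subtype.val '' K : Set (W2 → ZMod 2)) := by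
      rw [← hKcl.closure_eq, mem_closure_iff_nhds]
      intro t ht
      obtain ⟨F, hF⟩ := nhds_basis ht
      obtain ⟨d, hdD, hdF, hda⟩ : ∃ d ∈ D, (∀ b ∈ F, b < a → b < d) ∧ d < a := by
        by_cases hne : (F.filter (· < a)).Nonempty
        · have hm := (F.filter (· < a)).max'_mem hne
          obtain ⟨d, hdD, hd1, hd2⟩ := hex _ (Finset.mem_filter.1 hm).2
          exact ⟨d, hdD, fun b hb hba => lt_of_le_of_lt
            (Finset.le_max' _ _ (Finset.mem_filter.2 ⟨hb, hba⟩)) hd1, hd2⟩
        · have hne2 : (D ∩ Iio a).Nonempty := by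
            rw [nonempty_iff_ne_empty]
            intro h
            exact ha (h ▸ countable_empty)
          obtain ⟨d, hdD, hda⟩ := hne2
          exact ⟨d, hdD, fun b hb hba => absurd ⟨b, Finset.mem_filter.2 ⟨hb, hba⟩⟩ hne, hda⟩
      refine ⟨ind d, hF _ fun i hi => ?_, hdD.2⟩
      rcases le_or_gt a i with hai | hai
      · rw [ind_of_le hai, ind_of_le (hda.le.trans hai)]
      · rw [ind_of_lt hai, ind_of_lt (hdF i hi hai)]
    obtain ⟨g, -, hg⟩ := hmem
    obtain ⟨S, hS, hSa, hcof⟩ := ctblCof_of_ind_mem (hg ▸ g.2 : ind a ∈ G)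
    apply ha
    refine (hS.biUnion fun s hs => hcount s (hSa s hs)).mono ?_
    rintro y ⟨hyD, hya⟩
    obtain ⟨s, hs, hys⟩ := hcof y hya
    exact mem_iUnion₂.2 ⟨s, hs, hyD, hys⟩

/-- **Q1 is false**: a Hausdorff topological group without Cld-fans which is not a k-space. -/
theorem result : ∃ (G : Type) (_ : AddCommGroup G) (_ : TopologicalSpace G)
    (_ : IsTopologicalAddGroup G) (_ : T2Space G), NoCldFan.{0, w} G ∧ ¬ IsKSpace G := by
  refine ⟨G, inferInstance, inferInstance, inferInstance, inferInstance, ?_, ?_⟩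
  · intro ι F _ hF
    exact noFan compact_closure F hF
  · intro hk
    apply C_not_closed
    refine hk C fun K hK => ?_
    have := (C_k_closed K hK).preimage (continuous_subtype_val (p := fun x => x ∈ K))
    have h2 : (Subtype.val ⁻¹' (C ∩ K) : Set K) = Subtype.val ⁻¹' C := by
      ext y; simp
    rwa [h2] at this

end Pool.Agent.Results.MP_632b8e_gt.NotKSpace
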